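import Mathlib
import Pool.Agent.H77.TF.Def
import Pool.Agent.H77.TF.Stm
import Pool.Agent.H77.TF.Def2
import Pool.Agent.H77.GR.Stm

/-!
# Project GQ: Terao's conjecture over the rational numbers for exponents `1, a, b` with `2 a ≤ b + 3`

All modules of the projects TF, TG, TC, TD, GR may be used (all are on main).
-/

set_option autoImplicit false

open MvPolynomial Module Pool.Agent.H77.TF Pool.Agent.H77.GR

namespace Pool.Agent.H77.GQ

noncomputable section

/-- The number of the points of the line `A s` on the previous lines. -/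
def hn {K : Type} [Field K] {n : ℕ} (A : Fin n → Fin 3 → K) (s : Fin n) : ℕ :=
  Nat.card (Set.range fun i : Fin (s : ℕ) => Submodule.span K {A s, A (Fin.castLE s.2.le i)})

/-- The same dependent triples. -/
def Same {K K' : Type} [Field K] [Field K'] {ν : Type} (A : ν → Fin 3 → K) (B : ν → Fin 3 → K') : Prop :=
  ∀ i j l, A l ∈ Submodule.span K {A i, A j} ↔ B l ∈ Submodule.span K' {B i, B j}

/-- Every point is on at most `M` lines of the arrangement. -/
def MultLe {K : Type} [Field K] {ν : Type} (A : ν → Fin 3 → K) (M : ℕ) : Prop :=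
  ∀ W : Submodule K (Fin 3 → K), finrank K W = 2 → Nat.card {i // A i ∈ W} ≤ M

/-- DMF. Proof: induction on `n` from EX1 (`Pool.Agent.H53.GR.ex1`, with `A = snoc (init A) (A (last n))`); `n = 0`: the
dimension of the space of triples of forms of degree `m` (`Pool.Agent.H53.TD.t_DIM`, or `coe0` of `Pool.Agent.H69.GR.Ex2`). -/
def S_DMF : Prop :=
  ∀ (K : Type) [Field K] (n : ℕ) (A : Fin n → Fin 3 → K), Simple A → ∀ m : ℕ, n ≤ m + 1 →
    (finrank K (LRm A m) : ℤ) =
      3 * ((m + 2).choose 2 : ℕ) - n * (m + 1) + ∑ s : Fin n, ((s : ℕ) - hn A s : ℤ)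

/-- DME. Proof: `v = ∑ c_j b_j` is homogeneous of degree `m` iff every `c_j` is homogeneous of degree `m - e_j`
(uniqueness of coefficients, components); dimension of the space of forms: `Pool.Agent.H53.TD.t_DIM`. -/
def S_DME : Prop :=
  ∀ (K : Type) [Field K] (ν : Type) (A : ν → Fin 3 → K) (e : Fin 3 → ℕ), HasExp A e → ∀ m : ℕ,
    (∀ j, e j ≤ m) → finrank K (LRm A m) = ∑ j, (m - e j + 2).choose 2

/-- NUQ. Proof (from DMF, DME): compare the two formulas for two large values of `m`. -/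
def S_NUQ : Prop :=
  ∀ (K : Type) [Field K] (n : ℕ) (A : Fin n → Fin 3 → K) (a b : ℕ), Simple A → HasExp A ![1, a, b] →
    n = 1 + a + b ∧ 2 * ∑ s : Fin n, ((s : ℕ) - hn A s : ℤ) = a * (a - 1) + b * (b - 1)

/-- UNC. Proof: there are `q ^ 2 + q + 1` planes `W` of forms; the planes which contain `A s` but no `A i` with `i < s`
are `q + 1` minus the number `hn A s` of the planes `span {A s, A i}`, `i < s`. -/
def S_UNC : Prop :=
  ∀ (K : Type) [Field K] [Fintype K] (n : ℕ) (A : Fin n → Fin 3 → K), Simple A →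
    (uncD A : ℤ) = (Fintype.card K : ℤ) ^ 2 + Fintype.card K + 1 -
      ∑ s : Fin n, ((Fintype.card K : ℤ) + 1 - hn A s)

/-- SCL. Forms can be multiplied by constants, and the index set can be renamed. -/
def S_SCL : Prop :=
  ∀ (K : Type) [Field K] (ν ν' : Type) (A : ν → Fin 3 → K) (A' : ν' → Fin 3 → K) (c : ν → K) (β : ν ≃ ν'),
    (∀ i, c i ≠ 0) → (∀ i j, A i j = c i * A' (β i) j) → (∀ e, HasExp A e ↔ HasExp A' e) ∧
      (Simple A ↔ Simple A')

/-- INT. Common denominator. -/
def S_INT : Prop :=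
  ∀ (n : ℕ) (A : Fin n → Fin 3 → ℚ), ∃ (A' : Fin n → Fin 3 → ℤ) (c : Fin n → ℚ),
    (∀ i, c i ≠ 0) ∧ ∀ i j, A i j = c i * (A' i j : ℚ)

/-- DVR. `R` is the localisation of the integers at `p` (any model). -/
def S_DVR : Prop :=
  ∀ (p : ℕ), p.Prime → ∃ (R : Type) (_ : CommRing R) (_ : IsDomain R)
    (_ : IsDiscreteValuationRing R) (_ : Algebra R ℚ) (_ : IsFractionRing R ℚ)
    (_ : Fintype (IsLocalRing.ResidueField R)), Fintype.card (IsLocalRing.ResidueField R) = p ∧
      ∀ z : ℤ, (z : R) ∈ IsLocalRing.maximalIdeal R ↔ (p : ℤ) ∣ z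

/-- LRG. Proof: take `N` larger than the absolute values of all coefficients, all `2 × 2` minors and all determinants. -/
def S_LRG : Prop :=
  ∀ (n : ℕ) (A : Fin n → Fin 3 → ℤ), Simple (fun i j => (A i j : ℚ)) → ∃ N : ℕ,
    ∀ (R : Type) [CommRing R] [IsDomain R] [IsDiscreteValuationRing R] (p : ℕ), N < p →
      (∀ z : ℤ, (z : R) ∈ IsLocalRing.maximalIdeal R ↔ (p : ℤ) ∣ z) →
      Good (fun i j => (A i j : R))

/-- HNP. -/
def S_HNP : Prop :=
  ∀ (K K' : Type) [Field K] [Field K'] (n : ℕ) (A : Fin n → Fin 3 → K) (B : Fin n → Fin 3 → K'),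
    Simple A → Simple B → Same A B → ∀ s, hn A s = hn B s

/-- MUL. Proof: a plane with at least two forms of `B` is the span of any two of them. -/
def S_MUL : Prop :=
  ∀ (K K' : Type) [Field K] [Field K'] (n : ℕ) (A : Fin n → Fin 3 → K) (B : Fin n → Fin 3 → K') (M : ℕ),
    Simple A → Simple B → Same A B → 1 ≤ M → MultLe A M → MultLe B M

/-- MLT. Proof: let `x ≠ 0` with `W = {a : a ⬝ x = 0}`. `ψ = (∏_{A i ∉ W} lin (A i)) x` is in `LD A`, of degree `n - m`,
`m` the multiplicity. If `m ≥ b + 2` then `n - m < a` (`n = 1 + a + b`, NUQ), so `ψ = c b_0` with the element `b_0` of degree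
`1`; if `a ≥ 2` then also `θ_0 = d b_0`, `d` a nonzero constant, so `ψ` is a multiple of `θ_0`, contradiction; if `a ≤ 1` then
`n = m`, `ψ` has degree `0 < 1` and is `0`, contradiction. -/
def S_MLT : Prop :=
  ∀ (K : Type) [Field K] (n : ℕ) (A : Fin n → Fin 3 → K) (a b : ℕ), Simple A → a ≤ b →
    HasExp A ![1, a, b] → MultLe A (b + 1)

/-- EXF (project EX of helper79). -/
def S_EXF : Prop :=
  ∀ (K : Type) [Field K] [Fintype K] (n : ℕ) (A : Fin n → Fin 3 → K) (a b : ℕ), Simple A →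
    a ≤ b → 2 * a ≤ b + 3 → b < Fintype.card K → a ≤ ringChar K → n = 1 + a + b →
    uncD A = (Fintype.card K - a) * (Fintype.card K - b) → MultLe A (b + 1) → HasExp A ![1, a, b]

/-- The final statement of project GQ. -/
def S_FINQ : Prop :=
  ∀ (n m : ℕ) (A : Fin n → Fin 3 → ℚ) (B : Fin m → Fin 3 → ℚ) (a b : ℕ), Simple A → Simple B →
    Nonempty (Lat A ≃o Lat B) → a ≤ b → 2 * a ≤ b + 3 → HasExp A ![1, a, b] →
    m = n ∧ HasExp B ![1, a, b]

end

end Pool.Agent.H77.GQ
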