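import Pool.Agent.H77.GQ.Stm
import Pool.Agent.H77.GR.Fin
import Pool.Agent.H79.TD.Stm2
import Pool.Agent.H79.TD.Stm3

/-!
# Project GQ: the criterion over the rational numbers
-/

set_option autoImplicit false

open MvPolynomial Module Pool.Agent.H77.TF Pool.Agent.H77.GR

namespace Pool.Agent.H77.GQ

/-- The sum of the numbers of the points on the lines `A s` and the previous lines; this is the sum of
`m - 1` over all points, `m ≥ 2` the number of the lines through the point. -/
noncomputable def b2 {K : Type} [Field K] {n : ℕ} (A : Fin n → Fin 3 → K) : ℕ := ∑ s, hn A s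

/-- The criterion over the rational numbers. -/
def S_CRQ : Prop :=
  ∀ (n : ℕ) (A : Fin n → Fin 3 → ℚ) (a b : ℕ), Simple A → a ≤ b → 2 * a ≤ b + 3 →
    (HasExp A ![1, a, b] ↔ n = 1 + a + b ∧ b2 A = a * b + a + b ∧
      ∀ W : Submodule ℚ (Fin 3 → ℚ), finrank ℚ W = 2 → Nat.card {i // A i ∈ W} ≤ b + 1)

theorem sum_id (n : ℕ) : 2 * ∑ s : Fin n, ((s : ℕ) : ℤ) = n * (n - 1) := by
  rw [Fin.sum_univ_eq_sum_range (fun i => (i : ℤ)) n]
  induction n with
  | zero => simp
  | succ n ih =>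
    rw [Finset.sum_range_succ, mul_add, ih]
    push_cast
    ring

theorem sum_hn {K : Type} [Field K] {n : ℕ} (A : Fin n → Fin 3 → K) :
    2 * ∑ s : Fin n, ((s : ℕ) - hn A s : ℤ) = n * (n - 1) - 2 * b2 A := by
  rw [Finset.sum_sub_distrib, mul_sub, sum_id]
  unfold b2
  push_cast
  ring

theorem crq_of (hNUQ : S_NUQ) (hMLQ : S_MLT) (hUNC : S_UNC) (hHNP : S_HNP) (hPAT : S_PAT)
    (hSCL : Pool.Agent.H79.TD.S_SCL) (hSCI : Pool.Agent.H79.TD.S_SCI)
    (hGOD : Pool.Agent.H79.TD.S_GOD) (hDVQ : Pool.Agent.H79.TD.S_DVQ)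
    (hCRT : Pool.Agent.H79.TD.S_CRT) (hMLT : Pool.Agent.H79.TD.S_MLT)
    (hGRT : Pool.Agent.H79.TD.S_GRT) : S_CRQ := by
  intro n A a b hA hab h2
  constructor
  · intro hE
    obtain ⟨hn, hs⟩ := hNUQ ℚ n A a b hA hE
    refine ⟨hn, ?_, hMLQ ℚ n A a b hA hab hE⟩
    rw [sum_hn] at hs
    have hn' : (n : ℤ) = 1 + a + b := by exact_mod_cast hn
    have h3 : (b2 A : ℤ) = a * b + a + b := by
      have h9 : (n : ℤ) * (n - 1) = (1 + a + b) * (a + b) := by
        rw [hn']
        ring
      linarith [h9, hs, sq_nonneg ((a : ℤ) - b)]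
    exact_mod_cast h3
  · rintro ⟨hn, hb, hm⟩
    obtain ⟨A', c, hc, hA'⟩ := hSCL n A
    obtain ⟨h4, h5, h6⟩ := hSCI ℚ n A (mapA (Int.castRingHom ℚ) A') c hc hA'
    obtain ⟨t, ht, hgood⟩ := hGOD n A' (h4 hA)
    obtain ⟨p, hp1, hp⟩ := Nat.exists_infinite_primes (t + a + b + 1)
    haveI : Fact p.Prime := ⟨hp⟩
    obtain ⟨R, _, _, _, _, _, _, hchar, hcard⟩ := hDVQ p
    haveI := hchar
    have hpt : ¬ p ∣ t := fun h => by
      have := Nat.le_of_dvd (Nat.pos_of_ne_zero ht) h
      omega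
    have hG : Good (mapA (Int.castRingHom R) A') := hgood R p hpt
    have hQ : mapA (algebraMap R ℚ) (mapA (Int.castRingHom R) A') = mapA (Int.castRingHom ℚ) A' := by
      funext i j
      simp [mapA]
    obtain ⟨hS, hP⟩ := hPAT R ℚ (Fin n) _ hG
    rw [hQ] at hS hP
    set Ak := mapA (IsLocalRing.residue R) (mapA (Int.castRingHom R) A') with hAk
    have hSame : Same A Ak := fun i j l => (h6 i j l).symm.trans (hP i j l)
    have hSk : Simple Ak := hG.1
    have hbk : b2 Ak = a * b + a + b := by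
      rw [← hb]
      exact (Finset.sum_congr rfl fun s _ =>
        hHNP ℚ (IsLocalRing.ResidueField R) n A Ak hA hSk hSame s).symm
    have hu : (uncD Ak : ℤ) = ((p : ℤ) - a) * ((p : ℤ) - b) := by
      rw [hUNC (IsLocalRing.ResidueField R) n Ak hSk, hcard]
      rw [Finset.sum_sub_distrib, Finset.sum_const, Finset.card_univ, Fintype.card_fin, nsmul_eq_mul]
      have h7 : ∑ s : Fin n, (Pool.Agent.H77.GQ.hn Ak s : ℤ) = (b2 Ak : ℤ) := by
        unfold b2
        push_cast
        rfl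
      rw [h7, hbk, hn]
      push_cast
      ring
    have hu' : uncD Ak = (p - a) * (p - b) := by
      have h8 : ((p - a : ℕ) : ℤ) = (p : ℤ) - a := by
        rw [Nat.cast_sub (by omega)]
      have h9 : ((p - b : ℕ) : ℤ) = (p : ℤ) - b := by
        rw [Nat.cast_sub (by omega)]
      have : (uncD Ak : ℤ) = (((p - a) * (p - b) : ℕ) : ℤ) := by
        rw [hu, Nat.cast_mul, h8, h9]
      exact_mod_cast this
    have hEk : HasExp Ak ![1, a, b] := by
      refine hCRT (IsLocalRing.ResidueField R) n Ak a b hSk hab (by rw [hcard]; omega) hn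
        (by rw [hcard]; exact hu') h2 ?_ ?_
      · intro k hk hka hk0
        have := (CharP.cast_eq_zero_iff (IsLocalRing.ResidueField R) p k).1 hk0
        have := Nat.le_of_dvd hk this
        omega
      · intro W hW
        rcases Nat.lt_or_ge (Nat.card {i // Ak i ∈ W}) 2 with h | h
        · omega
        · obtain ⟨W', hW', hcW⟩ := hMLT ℚ (IsLocalRing.ResidueField R) n n A Ak hA hSk
            (Equiv.refl _) (fun i j k => hSame i j k) W hW h
          rw [← hcW]
          exact hm W' hW'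
    have hEQ := hGRT R ℚ n (mapA (Int.castRingHom R) A') hG ![1, a, b] hEk
      (by rw [sum3, hn])
    rw [hQ] at hEQ
    exact (h5 _).2 hEQ

end Pool.Agent.H77.GQ
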