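import Mathlib
import Pool.Agent.H77.TF.Def
import Pool.Agent.H77.GQ.Stm
import Pool.Agent.H77.GQ.Fin

/-!
# Project GQ: the sum of the multiplicities
-/

set_option autoImplicit false

open MvPolynomial Module Pool.Agent.H77.TF

namespace Pool.Agent.H77.GQ

/-- B2S. Proof. The support of the summand is in the finite set `P` of the planes `span {A s, A i}`, `i < s`. For
`W` in `P`, the members `s` with `A s ∈ W` other than the smallest one are those `s` such that
`W = span {A s, A i}` for some `i < s`; double counting of the pairs `(s, W)`. (`b2 A = ∑ s, hn A s`, see Fin.lean.) -/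
def S_B2S : Prop :=
  ∀ (K : Type) [Field K] (n : ℕ) (A : Fin n → Fin 3 → K), Simple A →
    b2 A = ∑ᶠ W ∈ {W : Submodule K (Fin 3 → K) | finrank K W = 2}, (Nat.card {i // A i ∈ W} - 1)

end Pool.Agent.H77.GQ
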