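import Mathlib
import Pool.Agent.H77.TF.Def
import Pool.Agent.H77.TF.Stm

/-!
# Project GQ: a free arrangement has the exponents `1, a, b`
-/

set_option autoImplicit false

open MvPolynomial Module Pool.Agent.H77.TF

namespace Pool.Agent.H77.GQ

/-- EXO. Proof: GRD gives `e` with a homogeneous basis `b_j ∈ LD A` of degrees `e j`. The Euler field `θ_0 = (X_0, X_1, X_2)` is in
`LD A`, homogeneous of degree `1`; so it is a combination of the `b_j` with `e j ≤ 1`, with homogeneous coefficients of degree
`1 - e j`. If no `e j` is `1`, then `θ_0 = ∑ l_j b_j`, `l_j` linear forms and `b_j` constant vectors, over the `j` with `e j = 0`;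
this is impossible for at most two such `j` (take a constant vector `c ≠ 0` orthogonal to them: `∑ c_i X_i = 0`), and if all `e j = 0` then
`LD A` contains all constant vectors, impossible since `n ≥ 1` (`lin (A 0)` does not divide a nonzero constant). So some `e j = 1`;
permute the basis (`Basis.reindex`) so that `e = ![1, a, b]`, `a ≤ b`. -/
def S_EXO : Prop :=
  ∀ (K : Type) [Field K] (n : ℕ) (A : Fin n → Fin 3 → K), Simple A → 1 ≤ n →
    Module.Free (MvPolynomial (Fin 3) K) (LD A) → ∃ a b : ℕ, a ≤ b ∧ HasExp A ![1, a, b]

end Pool.Agent.H77.GQ
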