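import Pool.Agent.H77.TF.Pri
import Pool.Agent.H77.TF.Moo
import Pool.Agent.H77.TF.Det
import Pool.Agent.H77.TF.Ful
import Pool.Agent.H22.TF.Mdt
import Pool.Agent.H27.TF.Sai
import Pool.Agent.H27.TF.Dd3
import Pool.Agent.H39.TF.Stp
import Pool.Agent.H40.TF.Bij
import Pool.Agent.H40.TF.Lt2
import Pool.Agent.H6.TC.Mr3s
import Pool.Agent.H75.TF.Suf
import Pool.Agent.H83.TF.Du2
import Pool.Agent.H6.GR.Fqg
import Pool.Agent.H12.GR.Dep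
import Pool.Agent.H23.GR.Red
import Pool.Agent.H27.GR.Exb
import Pool.Agent.H39.GR.Pst
import Pool.Agent.H53.GR.EX1
import Pool.Agent.H57.GR.Sbr
import Pool.Agent.H66.GR.Exl
import Pool.Agent.H69.GR.Ex2
import Pool.Agent.H83.GR.Lag
import Pool.Agent.H91.GR.Pat
import Pool.Agent.H93.GR.Kos
import Pool.Agent.H77.GR.Fin
import Pool.Agent.H77.GR.Td
import Pool.Agent.H77.GQ.Fin
import Pool.Agent.H18.GQ.Dme
import Pool.Agent.H22.GQ.Unc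
import Pool.Agent.H23.GQ.Nuq
import Pool.Agent.H49.GQ.Mlq
import Pool.Agent.H76.GQ.Dmf
import Pool.Agent.H91.GQ.Hnp
import Pool.Agent.H6.TD.Mul
import Pool.Agent.H6.TD.Sac
import Pool.Agent.H27.TD.Bin
import Pool.Agent.H39.TD.Ext
import Pool.Agent.H49.TD.Jac
import Pool.Agent.H49.TD.Uex
import Pool.Agent.H53.TD.RES
import Pool.Agent.H69.TD.God
import Pool.Agent.H71.TD.Mlt
import Pool.Agent.H75.TD.Dvq
import Pool.Agent.H91.TD.Scl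
import Pool.Agent.H99.TD.Rdc
import Pool.Agent.H79.TD.Crt
import Pool.Agent.H79.TD.Trf
import Pool.Agent.H79.TD.Finq

/-!
# Projects EX and GQ: assembly
-/

set_option autoImplicit false

open MvPolynomial Module Pool.Agent.H77.TF Pool.Agent.H77.GR

namespace Pool.Agent.H77.GQ

theorem dd3 : S_DD3 := Pool.Agent.H27.TF.dd3 pri det

theorem sai : S_SAI := Pool.Agent.H27.TF.sai pri det

theorem suf : S_SUF :=
  Pool.Agent.H75.TF.suf pri Pool.Agent.H22.TF.mdt sai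
    (Pool.Agent.H39.TF.stp (ful sai Pool.Agent.H22.TF.mdt))

theorem ex1 : S_EX1 :=
  Pool.Agent.H53.GR.ex1 (Pool.Agent.H27.GR.exb pri) (Pool.Agent.H66.GR.exl Pool.Agent.H83.GR.lag)

theorem grt : Pool.Agent.H79.TD.S_GRT :=
  transfer (Pool.Agent.H69.GR.ex2 ex1 Pool.Agent.H91.GR.pat)
    (Pool.Agent.H23.GR.red Pool.Agent.H57.GR.sbr) Pool.Agent.H91.GR.pat
    (Pool.Agent.H39.GR.pst (Pool.Agent.H12.GR.dep Pool.Agent.H93.GR.kos)) Pool.Agent.H6.GR.fqg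

theorem crt : Pool.Agent.H79.TD.S_CRT :=
  Pool.Agent.H79.TD.crt_of pri fin4 Pool.Agent.H6.TC.mr3 dd3
    (Pool.Agent.H39.TD.t_EXT Pool.Agent.H53.TD.t_RES
      (Pool.Agent.H27.TD.t_BIN Pool.Agent.H49.TD.t_JAC pri) pri) Pool.Agent.H83.TF.du2

theorem trf : Pool.Agent.H79.TD.S_TRF :=
  Pool.Agent.H79.TD.trf_of pri fin4 Pool.Agent.H6.TC.mr3 dd3 crt Pool.Agent.H6.TD.t_MUL
    Pool.Agent.H71.TD.t_MLT Pool.Agent.H49.TD.t_UEX Pool.Agent.H40.TF.lt2 Pool.Agent.H83.TF.du2 suf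

theorem fin5 : Pool.Agent.H79.TD.S_FIN5 :=
  Pool.Agent.H79.TD.fin5_of fin4 crt Pool.Agent.H6.TD.t_MUL trf Pool.Agent.H40.TF.bij
    Pool.Agent.H83.TF.du2

theorem finq : Pool.Agent.H79.TD.S_FINQ :=
  Pool.Agent.H79.TD.finq_of trf
    (Pool.Agent.H99.TD.t_RDC Pool.Agent.H6.TD.t_SAC sai) Pool.Agent.H69.TD.t_GOD
    Pool.Agent.H75.TD.t_DVQ Pool.Agent.H91.GR.pat grt Pool.Agent.H91.TD.t_SCL
    Pool.Agent.H69.TD.t_SCI Pool.Agent.H40.TF.bij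

theorem nuq : S_NUQ :=
  Pool.Agent.H23.GQ.nuq (Pool.Agent.H76.GQ.dmf ex1) Pool.Agent.H18.GQ.dme

theorem crq : S_CRQ :=
  crq_of nuq (Pool.Agent.H49.GQ.mlq nuq) Pool.Agent.H22.GQ.unc Pool.Agent.H91.GQ.hnp
    Pool.Agent.H91.GR.pat Pool.Agent.H91.TD.t_SCL Pool.Agent.H69.TD.t_SCI Pool.Agent.H69.TD.t_GOD
    Pool.Agent.H75.TD.t_DVQ crt Pool.Agent.H71.TD.t_MLT grt

end Pool.Agent.H77.GQ
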