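import Pool.Agent.H77.GQ.All
import Pool.Agent.H77.GQ.Stm2
import Pool.Agent.H49.CZ.Stm
import Pool.Agent.H40.TF.Bij

/-!
# Project GQ: the criterion over every field
-/

set_option autoImplicit false

open MvPolynomial Module Pool.Agent.H77.TF Pool.Agent.H77.GR

namespace Pool.Agent.H77.GQ

/-- The criterion over every field `K` such that `j ≠ 0` in `K` for `0 < j < a`. -/
def S_CRA : Prop :=
  ∀ (K : Type) [Field K] (n : ℕ) (A : Fin n → Fin 3 → K) (a b : ℕ), Simple A → a ≤ b → 2 * a ≤ b + 3 →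
    (∀ j : ℕ, 0 < j → j < a → (j : K) ≠ 0) →
    (HasExp A ![1, a, b] ↔ n = 1 + a + b ∧ b2 A = a * b + a + b ∧
      ∀ W : Submodule K (Fin 3 → K), finrank K W = 2 → Nat.card {i // A i ∈ W} ≤ b + 1)

/-- Terao's conjecture for exponents `1, a, b`, `2 a ≤ b + 3`, also for different fields. -/
def S_TEA : Prop :=
  ∀ (K K' : Type) [Field K] [Field K'] (n m : ℕ) (A : Fin n → Fin 3 → K) (B : Fin m → Fin 3 → K')
    (a b : ℕ), Simple A → Simple B → Nonempty (Lat A ≃o Lat B) → a ≤ b → 2 * a ≤ b + 3 →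
    (∀ j : ℕ, 0 < j → j < a → (j : K') ≠ 0) → HasExp A ![1, a, b] → m = n ∧ HasExp B ![1, a, b]

/-- Isomorphisms of the lattices over different fields. -/
theorem bij2 {K K' : Type} [Field K] [Field K'] {l n m : ℕ} {A : Fin n → Fin l → K}
    {B : Fin m → Fin l → K'} (hA : Simple A) (hB : Simple B) (h : Nonempty (Lat A ≃o Lat B)) :
    ∃ β : Fin n ≃ Fin m, ∀ i j k,
      A k ∈ Submodule.span K {A i, A j} ↔ B (β k) ∈ Submodule.span K' {B (β i), B (β j)} := by
  classical
  obtain ⟨e⟩ := h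
  have h1 : ∀ i, ∃ j, e (Pool.Agent.H40.TF.BJ.hh A i) = Pool.Agent.H40.TF.BJ.hh B j := by
    intro i
    rw [← Pool.Agent.H40.TF.BJ.isC_iff hB]
    exact Pool.Agent.H40.TF.BJ.isC_map e ((Pool.Agent.H40.TF.BJ.isC_iff hA _).2 ⟨i, rfl⟩)
  choose f hf using h1
  have hinj : Function.Injective f := by
    intro i j hij
    apply Pool.Agent.H40.TF.BJ.hh_inj hA
    apply e.injective
    rw [hf, hf, hij]
  have hsurj : Function.Surjective f := by
    intro j
    obtain ⟨i, hi⟩ := (Pool.Agent.H40.TF.BJ.isC_iff hA _).1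
      (Pool.Agent.H40.TF.BJ.isC_map e.symm ((Pool.Agent.H40.TF.BJ.isC_iff hB _).2 ⟨j, rfl⟩))
    refine ⟨i, Pool.Agent.H40.TF.BJ.hh_inj hB ?_⟩
    rw [← hf, ← hi, e.apply_symm_apply]
  refine ⟨Equiv.ofBijective f ⟨hinj, hsurj⟩, fun i j k => ?_⟩
  rw [Pool.Agent.H40.TF.BJ.rel, Pool.Agent.H40.TF.BJ.rel]
  show _ ↔ ∀ Y : Lat B, Y ≤ Pool.Agent.H40.TF.BJ.hh B (f i) →
    Y ≤ Pool.Agent.H40.TF.BJ.hh B (f j) → Y ≤ Pool.Agent.H40.TF.BJ.hh B (f k)
  rw [← hf, ← hf, ← hf]
  constructor
  · intro h Y hi hj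
    have := h (e.symm Y) (by rw [← e.le_iff_le, e.apply_symm_apply]; exact hi)
      (by rw [← e.le_iff_le, e.apply_symm_apply]; exact hj)
    rw [← e.le_iff_le, e.apply_symm_apply] at this
    exact this
  · intro h Y hi hj
    exact e.le_iff_le.1 (h (e Y) (e.le_iff_le.2 hi) (e.le_iff_le.2 hj))

/-- The number of uncovered points from `b2`. -/
theorem unc_eq {K : Type} [Field K] [Fintype K] {n : ℕ} {A : Fin n → Fin 3 → K} (hA : Simple A)
    {a b : ℕ} (hn : n = 1 + a + b) (hb : b2 A = a * b + a + b) :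
    (uncD A : ℤ) = ((Fintype.card K : ℤ) - a) * ((Fintype.card K : ℤ) - b) := by
  rw [Pool.Agent.H22.GQ.unc K n A hA]
  rw [Finset.sum_sub_distrib, Finset.sum_const, Finset.card_univ, Fintype.card_fin, nsmul_eq_mul]
  have h7 : ∑ s : Fin n, (Pool.Agent.H77.GQ.hn A s : ℤ) = (b2 A : ℤ) := by
    unfold b2
    push_cast
    rfl
  rw [h7, hb, hn]
  push_cast
  ring

/-- The criterion over a finite field, sufficient part. -/
theorem cra_fin {K : Type} [Field K] [Fintype K] {n : ℕ} {A : Fin n → Fin 3 → K} {a b : ℕ}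
    (hA : Simple A) (hab : a ≤ b) (h2 : 2 * a ≤ b + 3) (hch : ∀ j : ℕ, 0 < j → j < a → (j : K) ≠ 0)
    (hn : n = 1 + a + b) (hb : b2 A = a * b + a + b)
    (hm : ∀ W : Submodule K (Fin 3 → K), finrank K W = 2 → Nat.card {i // A i ∈ W} ≤ b + 1) :
    HasExp A ![1, a, b] := by
  have hu := unc_eq hA hn hb
  have haq : a ≤ Fintype.card K := by
    by_contra h
    exact hch (Fintype.card K) Fintype.card_pos (by omega) (by
      exact FiniteField.cast_card_eq_zero K)
  rcases Nat.lt_or_ge b (Fintype.card K) with hbq | hbq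
  · have hu' : uncD A = (Fintype.card K - a) * (Fintype.card K - b) := by
      have h8 : ((Fintype.card K - a : ℕ) : ℤ) = (Fintype.card K : ℤ) - a := by
        rw [Nat.cast_sub (by omega)]
      have h9 : ((Fintype.card K - b : ℕ) : ℤ) = (Fintype.card K : ℤ) - b := by
        rw [Nat.cast_sub (by omega)]
      have : (uncD A : ℤ) = (((Fintype.card K - a) * (Fintype.card K - b) : ℕ) : ℤ) := by
        rw [hu, Nat.cast_mul, h8, h9]
      exact_mod_cast this
    exact crt K n A a b hA hab hbq hn hu' h2 hch hm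
  · have h0 : uncD A = 0 := by
      have h1 : (0 : ℤ) ≤ uncD A := by positivity
      have h2 : ((Fintype.card K : ℤ) - a) * ((Fintype.card K : ℤ) - b) ≤ 0 := by
        apply mul_nonpos_of_nonneg_of_nonpos
        · have : (a : ℤ) ≤ Fintype.card K := by exact_mod_cast haq
          linarith
        · have : (Fintype.card K : ℤ) ≤ b := by exact_mod_cast hbq
          linarith
      have : (uncD A : ℤ) = 0 := le_antisymm (hu ▸ h2) h1
      exact_mod_cast this
    have h3 := Pool.Agent.H79.TD.exp_of_block suf hA h0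
    rcases Nat.eq_or_lt_of_le haq with h4 | h4
    · rw [← h4] at h3
      have : n - 1 - a = b := by omega
      rwa [this] at h3
    · have h5 : Fintype.card K = b := by
        rw [h0, eq_comm, Nat.cast_zero, mul_eq_zero] at hu
        rcases hu with h | h
        · have : (Fintype.card K : ℤ) = a := by linarith
          have : Fintype.card K = a := by exact_mod_cast this
          omega
        · have : (Fintype.card K : ℤ) = b := by linarith
          exact_mod_cast this
      rw [h5] at h3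
      have : n - 1 - b = a := by omega
      rw [this] at h3
      exact Pool.Agent.H79.TD.hasExp_swap h3

theorem cra_of (hSPC : Pool.Agent.H49.CZ.S_SPC) : S_CRA := by
  intro K _ n A a b hA hab h2 hch
  constructor
  · intro hE
    obtain ⟨hn, hs⟩ := nuq K n A a b hA hE
    refine ⟨hn, ?_, Pool.Agent.H49.GQ.mlq nuq K n A a b hA hab hE⟩
    rw [sum_hn] at hs
    have hn' : (n : ℤ) = 1 + a + b := by exact_mod_cast hn
    have h3 : (b2 A : ℤ) = a * b + a + b := by
      have h9 : (n : ℤ) * (n - 1) = (1 + a + b) * (a + b) := by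
        rw [hn']
        ring
      linarith [h9, hs]
    exact_mod_cast h3
  · rintro ⟨hn, hb, hm⟩
    rcases finite_or_infinite K with hK | hK
    · have := Fintype.ofFinite K
      exact cra_fin hA hab h2 hch hn hb hm
    · obtain ⟨k, _, _, B, hB, hSame, hchk, hbk, hB2⟩ := hSPC K n a b A hA hn hch
      refine hB2 (cra_fin hB hab h2 hchk hn ?_ ?_)
      · rw [← hb]
        exact (Finset.sum_congr rfl fun s _ => Pool.Agent.H91.GQ.hnp K k n A B hA hB hSame s).symm
      · intro W hW
        rcases Nat.lt_or_ge (Nat.card {i // B i ∈ W}) 2 with h | h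
        · omega
        · obtain ⟨W', hW', hcW⟩ := Pool.Agent.H71.TD.t_MLT K k n n A B hA hB
            (Equiv.refl _) (fun i j k => hSame i j k) W hW h
          rw [← hcW]
          exact hm W' hW'

/-- Renaming the planes. -/
theorem ld_comp {K : Type} [Field K] {ν ν' : Type} (A : ν → Fin 3 → K) (σ : ν' ≃ ν) :
    LD (A ∘ σ) = LD A := by
  ext v
  constructor
  · intro h i
    have := h (σ.symm i)
    simpa using this
  · intro h i
    exact h (σ i)

theorem tea_of (hCRA : S_CRA) : S_TEA := by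
  intro K K' _ _ n m A B a b hA hB hiso hab h2 hch hE
  obtain ⟨β, hβ⟩ := bij2 hA hB hiso
  have hmn : m = n := by
    have := Fintype.card_congr β
    rw [Fintype.card_fin, Fintype.card_fin] at this
    exact this.symm
  refine ⟨hmn, ?_⟩
  subst hmn
  have hA' : Simple (A ∘ β.symm) := by
    refine ⟨fun i => hA.1 _, fun i j hij c => hA.2 _ _ ?_ c⟩
    intro h
    exact hij (β.symm.injective h)
  have hE' : HasExp (A ∘ β.symm) ![1, a, b] := by
    unfold HasExp
    rw [ld_comp]
    exact hE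
  have hSame : Same (A ∘ β.symm) B := by
    intro i j l
    have := hβ (β.symm i) (β.symm j) (β.symm l)
    simpa using this
  obtain ⟨hn, hs⟩ := nuq K m (A ∘ β.symm) a b hA' hE'
  rw [sum_hn] at hs
  have hn' : (m : ℤ) = 1 + a + b := by exact_mod_cast hn
  have h3 : (b2 (A ∘ β.symm) : ℤ) = a * b + a + b := by
    have h9 : (m : ℤ) * (m - 1) = (1 + a + b) * (a + b) := by
      rw [hn']
      ring
    linarith [h9, hs]
  refine (hCRA K' m B a b hB hab h2 hch).2 ⟨hn, ?_, ?_⟩
  · have h4 : b2 (A ∘ β.symm) = b2 B :=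
      Finset.sum_congr rfl fun s _ => Pool.Agent.H91.GQ.hnp K K' m _ B hA' hB hSame s
    rw [← h4]
    exact_mod_cast h3
  · intro W hW
    rcases Nat.lt_or_ge (Nat.card {i // B i ∈ W}) 2 with h | h
    · omega
    · obtain ⟨W', hW', hcW⟩ := Pool.Agent.H71.TD.t_MLT K K' m m (A ∘ β.symm) B hA' hB
        (Equiv.refl _) (fun i j k => hSame i j k) W hW h
      rw [← hcW]
      exact Pool.Agent.H49.GQ.mlq nuq K m (A ∘ β.symm) a b hA' hab hE' W' hW'

end Pool.Agent.H77.GQ
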