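import Pool.Agent.H77.GQ.Cra
import Pool.Agent.H17.CZ.HomT
import Pool.Agent.H49.CZ.Lft
import Pool.Agent.H53.CZ.Dsc
import Pool.Agent.H56.CZ.Big
import Pool.Agent.H76.CZ.Spc
import Pool.Agent.H91.CZ.Trp

/-!
# The criterion and Terao's conjecture over every field, without hypotheses
-/

set_option autoImplicit false

namespace Pool.Agent.H77.GQ

theorem spc : Pool.Agent.H49.CZ.S_SPC :=
  Pool.Agent.H76.CZ.t_SPC Pool.Agent.H17.CZ.t_HOM Pool.Agent.H49.CZ.t_LFT Pool.Agent.H91.CZ.t_TRP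
    Pool.Agent.H53.CZ.t_DSC Pool.Agent.H56.CZ.t_BIG

theorem cra : S_CRA := cra_of spc

theorem tea : S_TEA := tea_of cra

end Pool.Agent.H77.GQ
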